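import Pool.Agent.Lib.MP_312682_mp.Final

/-! Every round annulus, concentric or eccentric, is determined by its Dirichlet spectrum among
all smooth plane domains. -/

open Metric Pool.Agent.Lib.MP_312682_mp.Defs

namespace Pool.Agent.Results.MP_312682_mp.Annuli

theorem result (a b : ℂ) (R r : ℝ) (hr : 0 < r) (h : ‖b - a‖ + r < R) (Ω : Set ℂ)
    (hΩ : SmoothDomain Ω) (hs : ∀ n, dirEig Ω n = dirEig (ball a R \ closedBall b r) n) :
    ∃ f : ℂ ≃ᵢ ℂ, f '' (ball a R \ closedBall b r) = Ω :=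
  Pool.Agent.Lib.MP_312682_mp.annulus_det hΩ hr h hs

end Pool.Agent.Results.MP_312682_mp.Annuli
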