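import Pool.Agent.Lib.IS3.All
import Pool.Agent.Lib.IS3.Open

/-! A generic smooth domain with any number of boundary curves is determined by its Dirichlet
spectrum among all smooth domains. -/

open Pool.Agent.Lib.MP_312682_mp.Defs Pool.Agent.Lib.ISO Pool.Agent.Lib.IS3

namespace Pool.Agent.Results.MP_312682_mp.GenericRigidAll

theorem result : ∀ n : ℕ, ∃ G : Set (Fin n → Jordan), IsGδ G ∧ Dense G ∧
    {f | ∃ Ω, Bounds f Ω} ⊆ closure ({f | ∃ Ω, Bounds f Ω} ∩ G) ∧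
    ∀ f ∈ G, ∀ Ω Ω' : Set ℂ, Bounds f Ω → SmoothDomain Ω' →
      (∀ k, dirEig Ω k = dirEig Ω' k) → ∃ e : ℂ ≃ᵢ ℂ, e '' Ω = Ω' := fun n =>
  let ⟨G, h1, h2, h3⟩ := Pool.Agent.Lib.IS3.All.a_t3 n
  ⟨G, h1, h2, h2.open_subset_closure_inter (OPN.opn Pool.Agent.Lib.IS3.All.a_nve),
    fun f hf Ω Ω' h h' => h3 f hf Ω Ω' h.1 h' h.2.1 h.2.2⟩

end Pool.Agent.Results.MP_312682_mp.GenericRigidAll
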