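import Pool.Agent.Lib.MP_312682_mp.Final

/-! A smooth plane domain isospectral to a disc with `k` equal round holes is a disc of the same
radius with `k` round holes of the same radius. -/

open Metric Pool.Agent.Lib.MP_312682_mp.Defs

namespace Pool.Agent.Results.MP_312682_mp.Perforated

theorem result (k : ℕ) (a : ℂ) (b : Fin k → ℂ) (R r : ℝ) (hr : 0 < r) (hR : r < R)
    (h1 : ∀ i, ‖b i - a‖ + r < R) (h2 : ∀ i j, i ≠ j → 2 * r < ‖b i - b j‖) (Ω : Set ℂ)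
    (hΩ : SmoothDomain Ω) (hs : ∀ n, dirEig Ω n = dirEig (ball a R \ ⋃ i, closedBall (b i) r) n) :
    ∃ (a' : ℂ) (b' : Fin k → ℂ), (∀ i, ‖b' i - a'‖ + r < R) ∧
      (∀ i j, i ≠ j → 2 * r < ‖b' i - b' j‖) ∧ Ω = ball a' R \ ⋃ i, closedBall (b' i) r := by
  obtain ⟨a', b', h, e⟩ := Pool.Agent.Lib.MP_312682_mp.perf_class hΩ ⟨hr, hR, h1, h2⟩ hs
  exact ⟨a', b', h.ins, h.sep, e⟩

end Pool.Agent.Results.MP_312682_mp.Perforated
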